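import Pool.Agent.Q273.AD.Stm

/-!
# Project AD, job FINT: measurability and integrability of the local factors
-/

set_option autoImplicit false

open MeasureTheory NumberField NumberField.mixedEmbedding
open IsDedekindDomain Pool.Agent.H691R3 Pool.Agent.W232.VA

namespace Pool.Agent.Q149.AD

open Q273.AD

/-- the distance function -/
noncomputable def gf {K : Type} [Field K] [NumberField K] {n : ℕ} (v : HeightOneSpectrum (𝓞 K)) (y : Fin n → K)
    (η : FinAd K n) : ℝ := ⨆ j, ‖(η v j : v.adicCompletion K) - FinitePlace.embedding v (y j)‖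

theorem cont_coord {K : Type} [Field K] [NumberField K] {n : ℕ} (v : HeightOneSpectrum (𝓞 K)) (y : Fin n → K) (j : Fin n) :
    Continuous fun η : FinAd K n => ‖(η v j : v.adicCompletion K) - FinitePlace.embedding v (y j)‖ := by
  have h1 : Continuous fun η : FinAd K n => η v j := (continuous_apply j).comp (continuous_apply v)
  have h2 : Continuous fun η : FinAd K n => (η v j : v.adicCompletion K) := continuous_subtype_val.comp h1
  exact (h2.sub continuous_const).norm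

theorem meas_gf {K : Type} [Field K] [NumberField K] {n : ℕ} [MeasurableSpace (FinAd K n)] [BorelSpace (FinAd K n)]
    (v : HeightOneSpectrum (𝓞 K)) (y : Fin n → K) : Measurable (gf v y) := by
  unfold gf
  exact Measurable.iSup fun j => (cont_coord v y j).measurable

/-- Job PVM. -/
theorem pvm : S_PVM := by
  intro K _ _ n hn _ _ v y
  have h1 := (meas_gf v y).inv
  exact Real.measurable_log.comp (measurable_const.max h1)

/-- the pointwise inequality -/
theorem pointwise {N s g : ℝ} (hN : 2 ≤ N) (hs : 0 < s) (hg : 0 ≤ g) :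
    ENNReal.ofReal (Real.exp (s * Real.log (max 1 g⁻¹))) ≤
      1 + ENNReal.ofReal (N ^ s) * ∑' k : ℕ, ENNReal.ofReal (N ^ s) ^ k * (if g ≤ (N ^ k)⁻¹ then 1 else 0) := by
  have hN0 : 0 < N := by linarith
  have hb : 0 < N ^ s := Real.rpow_pos_of_pos hN0 s
  have triv : Real.log (max 1 g⁻¹) = 0 → ENNReal.ofReal (Real.exp (s * Real.log (max 1 g⁻¹))) ≤
      1 + ENNReal.ofReal (N ^ s) * ∑' k : ℕ, ENNReal.ofReal (N ^ s) ^ k * (if g ≤ (N ^ k)⁻¹ then 1 else 0) := by
    intro h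
    rw [h, mul_zero, Real.exp_zero, ENNReal.ofReal_one]
    exact le_self_add
  rcases hg.eq_or_lt with h0 | h0
  · apply triv
    rw [← h0]
    simp
  by_cases h1 : 1 < g
  · apply triv
    have : g⁻¹ ≤ 1 := inv_le_one_of_one_le₀ h1.le
    rw [max_eq_left this, Real.log_one]
  push Not at h1
  obtain ⟨k, hk1, hk2⟩ := exists_nat_pow_near_of_lt_one h0 h1 (inv_pos.2 hN0) (inv_lt_one_of_one_lt₀ (by linarith))
  have h2 : 1 ≤ g⁻¹ := (one_le_inv₀ h0).2 h1
  rw [max_eq_right h2]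
  have h3 : Real.exp (s * Real.log g⁻¹) ≤ (N ^ s) ^ (k + 1) := by
    have h4 : g⁻¹ ≤ N ^ (k + 1) := by
      rw [inv_pow] at hk1
      exact (inv_le_of_inv_le₀ (by positivity) hk1.le)
    have h5 : Real.exp (s * Real.log g⁻¹) = g⁻¹ ^ s := by
      rw [Real.rpow_def_of_pos (inv_pos.2 h0), mul_comm]
    rw [h5]
    have h6 : (N ^ s) ^ (k + 1) = (N ^ (k + 1)) ^ s := by
      rw [← Real.rpow_natCast, ← Real.rpow_mul hN0.le, mul_comm, Real.rpow_mul hN0.le, Real.rpow_natCast]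
    rw [h6]
    exact Real.rpow_le_rpow (inv_nonneg.2 hg) h4 hs.le
  calc ENNReal.ofReal (Real.exp (s * Real.log g⁻¹)) ≤ ENNReal.ofReal ((N ^ s) ^ (k + 1)) := ENNReal.ofReal_le_ofReal h3
    _ = ENNReal.ofReal (N ^ s) * (ENNReal.ofReal (N ^ s) ^ k * (if g ≤ (N ^ k)⁻¹ then 1 else 0)) := by
        rw [inv_pow] at hk2
        rw [if_pos hk2, mul_one, ENNReal.ofReal_pow hb.le, pow_succ']
    _ ≤ ENNReal.ofReal (N ^ s) * ∑' k : ℕ, ENNReal.ofReal (N ^ s) ^ k * (if g ≤ (N ^ k)⁻¹ then 1 else 0) := by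
        gcongr
        exact ENNReal.le_tsum k
    _ ≤ _ := le_add_self

/-- the constant of a prime -/
noncomputable def Cu (N s : ℝ) (n : ℕ) : ENNReal :=
  1 + ENNReal.ofReal (N ^ s) * ∑' k : ℕ, ENNReal.ofReal (N ^ s) ^ k * ENNReal.ofReal ((N ^ (n * k))⁻¹)

theorem Cu_ne_top {N s : ℝ} {n : ℕ} (hN : 2 ≤ N) (hsn : s < n) : Cu N s n ≠ ⊤ := by
  have hN0 : 0 < N := by linarith
  have hb : 0 < N ^ s := Real.rpow_pos_of_pos hN0 s
  have h1 : ∀ k : ℕ, ENNReal.ofReal (N ^ s) ^ k * ENNReal.ofReal ((N ^ (n * k))⁻¹) = ENNReal.ofReal (N ^ s * (N ^ n)⁻¹) ^ k := by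
    intro k
    rw [ENNReal.ofReal_mul hb.le, mul_pow, ← ENNReal.ofReal_pow (by positivity : 0 ≤ (N ^ n)⁻¹), inv_pow, pow_mul]
  unfold Cu
  simp_rw [h1]
  rw [ENNReal.tsum_geometric]
  refine ENNReal.add_ne_top.2 ⟨ENNReal.one_ne_top, ENNReal.mul_ne_top ENNReal.ofReal_ne_top ?_⟩
  rw [ENNReal.inv_ne_top, Ne, tsub_eq_zero_iff_le, not_le, ENNReal.ofReal_lt_one]
  rw [← div_eq_mul_inv, div_lt_one (by positivity), ← Real.rpow_natCast]
  exact Real.rpow_lt_rpow_of_exponent_lt (by linarith) hsn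

/-- one step of the induction -/
theorem step {Ω : Type*} [MeasurableSpace Ω] (μ : Measure Ω) {N s : ℝ} {n : ℕ} (hN : 2 ≤ N) (hs : 0 < s) {g : Ω → ℝ}
    (hg : Measurable g) (hg0 : ∀ η, 0 ≤ g η) {F : Ω → ENNReal} (hF : Measurable F) {A : ENNReal}
    (h0 : ∫⁻ η, F η ∂μ ≤ A)
    (h1 : ∀ k : ℕ, ∫⁻ η, F η * (if g η ≤ (N ^ k)⁻¹ then 1 else 0) ∂μ ≤ A * ENNReal.ofReal ((N ^ (n * k))⁻¹)) :
    ∫⁻ η, F η * ENNReal.ofReal (Real.exp (s * Real.log (max 1 (g η)⁻¹))) ∂μ ≤ A * Cu N s n := by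
  have hm : ∀ k : ℕ, Measurable fun η => (if g η ≤ (N ^ k)⁻¹ then (1 : ENNReal) else 0) := fun k =>
    Measurable.ite (measurableSet_le hg measurable_const) measurable_const measurable_const
  have hm2 : ∀ k : ℕ, Measurable fun η => F η * (if g η ≤ (N ^ k)⁻¹ then (1 : ENNReal) else 0) := fun k => hF.mul (hm k)
  have hm3 : ∀ k : ℕ, Measurable fun η => ENNReal.ofReal (N ^ s) ^ k * (F η * (if g η ≤ (N ^ k)⁻¹ then (1 : ENNReal) else 0)) :=
    fun k => (hm2 k).const_mul _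
  have hm4 : Measurable fun η => ∑' k : ℕ, ENNReal.ofReal (N ^ s) ^ k * (F η * (if g η ≤ (N ^ k)⁻¹ then (1 : ENNReal) else 0)) :=
    Measurable.tsum hm3
  calc ∫⁻ η, F η * ENNReal.ofReal (Real.exp (s * Real.log (max 1 (g η)⁻¹))) ∂μ
      ≤ ∫⁻ η, (F η + ENNReal.ofReal (N ^ s) * ∑' k : ℕ, ENNReal.ofReal (N ^ s) ^ k * (F η * (if g η ≤ (N ^ k)⁻¹ then 1 else 0))) ∂μ := by
        refine lintegral_mono fun η => ?_
        have h2 := pointwise hN hs (hg0 η)
        calc F η * ENNReal.ofReal (Real.exp (s * Real.log (max 1 (g η)⁻¹))) ≤ F η * (1 + ENNReal.ofReal (N ^ s) *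
              ∑' k : ℕ, ENNReal.ofReal (N ^ s) ^ k * (if g η ≤ (N ^ k)⁻¹ then 1 else 0)) := by gcongr
          _ = F η + ENNReal.ofReal (N ^ s) * ∑' k : ℕ, ENNReal.ofReal (N ^ s) ^ k * (F η * (if g η ≤ (N ^ k)⁻¹ then 1 else 0)) := by
              rw [mul_add, mul_one, mul_left_comm, ← ENNReal.tsum_mul_left]
              congr 3
              funext k
              rw [mul_left_comm]
    _ = ∫⁻ η, F η ∂μ + ENNReal.ofReal (N ^ s) * ∑' k : ℕ, ENNReal.ofReal (N ^ s) ^ k *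
          ∫⁻ η, F η * (if g η ≤ (N ^ k)⁻¹ then 1 else 0) ∂μ := by
        rw [lintegral_add_left hF, lintegral_const_mul _ hm4, lintegral_tsum fun k => (hm3 k).aemeasurable]
        congr 3
        funext k
        rw [lintegral_const_mul _ (hm2 k)]
    _ ≤ A + ENNReal.ofReal (N ^ s) * ∑' k : ℕ, ENNReal.ofReal (N ^ s) ^ k * (A * ENNReal.ofReal ((N ^ (n * k))⁻¹)) := by
        gcongr with k
        exact h1 k
    _ = A * Cu N s n := by
        have e : ∀ k : ℕ, ENNReal.ofReal (N ^ s) ^ k * (A * ENNReal.ofReal ((N ^ (n * k))⁻¹)) =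
            A * (ENNReal.ofReal (N ^ s) ^ k * ENNReal.ofReal ((N ^ (n * k))⁻¹)) := fun k => mul_left_comm _ _ _
        unfold Cu
        simp_rw [e]
        rw [ENNReal.tsum_mul_left, mul_add, mul_one, mul_left_comm A]

theorem gf_le_iff {K : Type} [Field K] [NumberField K] {n : ℕ} (hn : 1 ≤ n) (v : HeightOneSpectrum (𝓞 K)) (y : Fin n → K)
    (η : FinAd K n) (c : ℝ) : gf v y η ≤ c ↔ ∀ j, ‖(η v j : v.adicCompletion K) - FinitePlace.embedding v (y j)‖ ≤ c := by
  have : Nonempty (Fin n) := ⟨⟨0, hn⟩⟩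
  exact ciSup_le_iff (Set.finite_range _).bddAbove

theorem gf_nonneg {K : Type} [Field K] [NumberField K] {n : ℕ} (v : HeightOneSpectrum (𝓞 K)) (y : Fin n → K)
    (η : FinAd K n) : 0 ≤ gf v y η := Real.iSup_nonneg fun _ => norm_nonneg _

open scoped Classical in
theorem induct (hB : S_BALL) (K : Type) [Field K] [NumberField K] (n : ℕ) (hn : 1 ≤ n) [MeasurableSpace (FinAd K n)]
    [BorelSpace (FinAd K n)] (μ : Measure (FinAd K n)) [IsFiniteMeasure μ] [μ.IsAddLeftInvariant] {s : ℝ} (hs : 0 < s)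
    (hsn : s < n) (V : Finset (HeightOneSpectrum (𝓞 K))) :
    ∃ C : ENNReal, C ≠ ⊤ ∧ ∀ (y : Fin n → K) (V' : Finset (HeightOneSpectrum (𝓞 K))) (k : HeightOneSpectrum (𝓞 K) → ℕ),
      Disjoint V V' →
      ∫⁻ η, (∏ v ∈ V, ENNReal.ofReal (Real.exp (s * Real.log (max 1 (gf v y η)⁻¹)))) *
        (if ∀ v ∈ V', gf v y η ≤ ((Nv v) ^ (k v))⁻¹ then 1 else 0) ∂μ ≤
        C * ENNReal.ofReal (∏ v ∈ V', ((Nv v) ^ (n * k v))⁻¹) := by
  have hmeas : ∀ (y : Fin n → K) (V' : Finset (HeightOneSpectrum (𝓞 K))) (k : HeightOneSpectrum (𝓞 K) → ℕ),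
      MeasurableSet {η : FinAd K n | ∀ v ∈ V', gf v y η ≤ ((Nv v) ^ (k v))⁻¹} := by
    intro y V' k
    have : {η : FinAd K n | ∀ v ∈ V', gf v y η ≤ ((Nv v) ^ (k v))⁻¹} = ⋂ v ∈ V', {η | gf v y η ≤ ((Nv v) ^ (k v))⁻¹} := by
      ext η
      simp
    rw [this]
    exact Finset.measurableSet_biInter _ fun v _ => measurableSet_le (meas_gf v y) measurable_const
  induction V using Finset.induction_on with
  | empty =>
    refine ⟨μ Set.univ, measure_ne_top _ _, fun y V' k _ => ?_⟩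
    have h1 : ∫⁻ η, (∏ v ∈ (∅ : Finset (HeightOneSpectrum (𝓞 K))), ENNReal.ofReal (Real.exp (s * Real.log (max 1 (gf v y η)⁻¹)))) *
        (if ∀ v ∈ V', gf v y η ≤ ((Nv v) ^ (k v))⁻¹ then 1 else 0) ∂μ =
        μ {η : FinAd K n | ∀ v ∈ V', gf v y η ≤ ((Nv v) ^ (k v))⁻¹} := by
      rw [← lintegral_indicator_one (hmeas y V' k)]
      refine lintegral_congr fun η => ?_
      rw [Finset.prod_empty, one_mul]
      by_cases a1 : ∀ v ∈ V', gf v y η ≤ ((Nv v) ^ (k v))⁻¹
      · have a2 : η ∈ {η : FinAd K n | ∀ v ∈ V', gf v y η ≤ ((Nv v) ^ (k v))⁻¹} := a1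
        rw [if_pos a1, Set.indicator_of_mem a2]
        rfl
      · have a2 : η ∉ {η : FinAd K n | ∀ v ∈ V', gf v y η ≤ ((Nv v) ^ (k v))⁻¹} := a1
        rw [if_neg a1, Set.indicator_of_notMem a2]
    rw [h1]
    have h2 : {η : FinAd K n | ∀ v ∈ V', gf v y η ≤ ((Nv v) ^ (k v))⁻¹} =
        {η : FinAd K n | ∀ v ∈ V', ∀ j, ‖(η v j : v.adicCompletion K) - FinitePlace.embedding v (y j)‖ ≤ ((Nv v) ^ (k v))⁻¹} := by
      ext η
      simp only [Set.mem_ofPred_eq]
      exact forall₂_congr fun v _ => gf_le_iff hn v y η _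
    rw [h2]
    exact hB K n μ V' y k
  | insert u V hu ih =>
    obtain ⟨C, hC, hV⟩ := ih
    refine ⟨C * Cu (Nv u) s n, ENNReal.mul_ne_top hC (Cu_ne_top (two_le_Nv u) hsn), fun y V' k hd => ?_⟩
    have hd1 : Disjoint V V' := Finset.disjoint_of_subset_left (Finset.subset_insert u V) hd
    have huV' : u ∉ V' := Finset.disjoint_left.1 hd (Finset.mem_insert_self u V)
    set F : FinAd K n → ENNReal := fun η => (∏ v ∈ V, ENNReal.ofReal (Real.exp (s * Real.log (max 1 (gf v y η)⁻¹)))) *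
        (if ∀ v ∈ V', gf v y η ≤ ((Nv v) ^ (k v))⁻¹ then 1 else 0) with hF
    have hFm : Measurable F := by
      refine Measurable.mul (Finset.measurable_fun_prod _ fun v _ => ?_) (Measurable.ite (hmeas y V' k) measurable_const measurable_const)
      exact ENNReal.measurable_ofReal.comp (Real.measurable_exp.comp
        ((Real.measurable_log.comp (measurable_const.max (meas_gf v y).inv)).const_mul s))
    have h3 := step μ (N := Nv u) (n := n) (two_le_Nv u) hs (meas_gf u y) (gf_nonneg u y) hFm (hV y V' k hd1) (by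
      intro kk
      have h4 := hV y (insert u V') (Function.update k u kk) (by
        rw [Finset.disjoint_insert_right]
        exact ⟨hu, hd1⟩)
      have h5 : ENNReal.ofReal (∏ v ∈ insert u V', ((Nv v) ^ (n * (Function.update k u kk) v))⁻¹) =
          ENNReal.ofReal (∏ v ∈ V', ((Nv v) ^ (n * k v))⁻¹) * ENNReal.ofReal (((Nv u) ^ (n * kk))⁻¹) := by
        rw [Finset.prod_insert huV', Function.update_self, mul_comm, ENNReal.ofReal_mul]
        · congr 2
          refine Finset.prod_congr rfl fun v hv => ?_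
          rw [Function.update_of_ne]
          rintro rfl
          exact huV' hv
        · refine Finset.prod_nonneg fun v _ => ?_
          have := two_le_Nv v
          positivity
      rw [h5, ← mul_assoc] at h4
      refine le_trans (le_of_eq (lintegral_congr fun η => ?_)) h4
      rw [hF]
      simp only
      rw [mul_assoc]
      congr 1
      have h6 : (∀ v ∈ insert u V', gf v y η ≤ ((Nv v) ^ (Function.update k u kk v))⁻¹) ↔
          ((∀ v ∈ V', gf v y η ≤ ((Nv v) ^ (k v))⁻¹) ∧ gf u y η ≤ ((Nv u) ^ kk)⁻¹) := by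
        rw [Finset.forall_mem_insert, Function.update_self, and_comm]
        refine and_congr_left fun _ => forall₂_congr fun v hv => ?_
        rw [Function.update_of_ne]
        rintro rfl
        exact huV' hv
      by_cases a1 : (∀ v ∈ V', gf v y η ≤ ((Nv v) ^ (k v))⁻¹) <;> by_cases a2 : gf u y η ≤ ((Nv u) ^ kk)⁻¹
      · rw [if_pos a1, if_pos a2, if_pos (h6.2 ⟨a1, a2⟩), mul_one]
      · rw [if_neg a2, if_neg fun h => a2 (h6.1 h).2, mul_zero]
      · rw [if_neg a1, if_neg fun h => a1 (h6.1 h).1, zero_mul]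
      · rw [if_neg a1, if_neg fun h => a1 (h6.1 h).1, zero_mul])
    refine le_trans (le_of_eq (lintegral_congr fun η => ?_)) (h3.trans (le_of_eq ?_))
    · rw [Finset.prod_insert hu, hF]
      simp only
      ring
    · ring

/-- Job FINT. -/
theorem fint (h : S_BALL) : S_FINT := by
  classical
  intro K _ _ n hn _ _ μ _ _ V ε hε hε1
  have hn' : (1 : ℝ) ≤ n := by exact_mod_cast hn
  have hs : 0 < (n : ℝ) * (1 - ε) := mul_pos (by linarith) (by linarith)
  have hsn : (n : ℝ) * (1 - ε) < n := by nlinarith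
  obtain ⟨C, hC, hV⟩ := induct h K n hn μ hs hsn V
  refine ⟨C, hC, fun y => ?_⟩
  have h1 := hV y ∅ (fun _ => 0) (Finset.disjoint_empty_right V)
  rw [Finset.prod_empty, ENNReal.ofReal_one, mul_one] at h1
  refine le_trans (le_of_eq (lintegral_congr fun η => ?_)) h1
  rw [if_pos (by simp), mul_one, ← ENNReal.ofReal_prod_of_nonneg fun v _ => (Real.exp_pos _).le, ← Real.exp_sum, ← Finset.mul_sum]
  rfl

end Pool.Agent.Q149.AD
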